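import Pool.Agent.R88.UB.Upper

/-!
# The unit bar visibility number of complete bipartite graphs (MP_f867b0_co)

For `2 ≤ n ≤ m` we have `m / 4 ≤ ub(K_{m,n}) ≤ m / 4 + 12`, so `ub(K_{m,n}) = m / 4 + o(m)`
uniformly over `2 ≤ n ≤ m`.

A bar is given by its left endpoint `p : ℝ × ℝ`, and `Pool.Agent.R88.UB.Seg p` is the bar itself.
The definitions `Seg`, `Chan`, `Joined`, `IsRep`, `ub` are in `Pool/Agent/R88/UB/Rep.lean`.
-/

set_option autoImplicit false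

namespace Pool.Agent.Results.MP_f867b0_co.UnitBar

open Pool.Agent.R88.UB

/-- The answer to Q1: `ub(K_{m,n}) = m / 4 + O(1)`, uniformly over `2 ≤ n ≤ m`. The first part is
the lower bound `t ≥ m / 4` for every `t`-unit-bar visibility representation of `K_{m,n}`, for all
`m` and all `n ≥ 1`. -/
theorem result :
    (∀ m n t : ℕ, 1 ≤ n → ∀ R : Fin m ⊕ Fin n → Finset (ℝ × ℝ),
      IsRep (completeBipartiteGraph (Fin m) (Fin n)) t R → m ≤ 4 * t) ∧
    (∀ m n : ℕ, 2 ≤ n → n ≤ m →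
      (m : ℝ) / 4 ≤ (ub (completeBipartiteGraph (Fin m) (Fin n)) : ℝ) ∧
      (ub (completeBipartiteGraph (Fin m) (Fin n)) : ℝ) ≤ (m : ℝ) / 4 + 12) ∧
    (∀ ε : ℝ, 0 < ε → ∃ N : ℕ, ∀ m n : ℕ, N ≤ m → 2 ≤ n → n ≤ m →
      |(ub (completeBipartiteGraph (Fin m) (Fin n)) : ℝ) - (m : ℝ) / 4| ≤ ε * m) := by
  have key : ∀ m n : ℕ, 2 ≤ n → n ≤ m →
      (m : ℝ) / 4 ≤ (ub (completeBipartiteGraph (Fin m) (Fin n)) : ℝ) ∧
      (ub (completeBipartiteGraph (Fin m) (Fin n)) : ℝ) ≤ (m : ℝ) / 4 + 12 := by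
    intro m n hn hnm
    obtain ⟨h1, h2⟩ := ub_bounds hn hnm
    constructor
    · have h3 : (m : ℝ) ≤ ((4 * ub (completeBipartiteGraph (Fin m) (Fin n)) : ℕ) : ℝ) := by
        exact_mod_cast h1
      push_cast at h3
      linarith
    · have h3 : (ub (completeBipartiteGraph (Fin m) (Fin n)) : ℝ) ≤ ((m / 4 + 12 : ℕ) : ℝ) := by
        exact_mod_cast h2
      have h4 : ((m / 4 : ℕ) : ℝ) ≤ (m : ℝ) / 4 := by exact_mod_cast Nat.cast_div_le
      push_cast at h3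
      linarith
  refine ⟨fun m n t hn R hR => le_of_isRep hR hn, key, ?_⟩
  intro ε hε
  obtain ⟨N, hN⟩ := exists_nat_gt (12 / ε)
  refine ⟨N, fun m n hm hn hnm => ?_⟩
  obtain ⟨h1, h2⟩ := key m n hn hnm
  have h3 : 12 ≤ ε * m := by
    rw [div_lt_iff₀ hε] at hN
    have h4 : (N : ℝ) ≤ m := by exact_mod_cast hm
    nlinarith
  rw [abs_le]
  constructor <;> linarith

end Pool.Agent.Results.MP_f867b0_co.UnitBar
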